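import Mathlib
import Pool.Agent.J6H55.MA.Fin
import Pool.Agent.J6H14.MA.Inf
import Pool.Agent.J6H22.MA.Fro
import Pool.Agent.J6H28.MA.Grp
import Pool.Agent.J6H85.MA.Step
import Pool.Agent.J6H78.MA.Blk
import Pool.Agent.J6H47.MA.Met

/-!
# A nontrivial minimal system with the asymptotic average shadowing property

Question Q1 (Kulczycki, Kwietniak, Oprocha): is there a nontrivial minimal system with the almost specification
property, or the asymptotic average shadowing property (AASP), or the average shadowing property (ASP)?

Theorem. There is a nontrivial minimal system (a one-sided shift space over two letters) with the asymptotic average
shadowing property. (By the known implication it also has the average shadowing property.) So the answer to Q1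
is yes. (No nontrivial minimal system has the almost specification property, by Kwietniak, Oprocha and Rams.)

`Minimal f`: the only nonempty closed set `A` with `f A ⊆ A` is the whole space. `AASP f`: for each sequence `x` with
`(1/n) ∑_{i<n} d(f(x_i), x_{i+1}) → 0` there is a point `y` with `(1/n) ∑_{i<n} d(f^i(y), x_i) → 0`.

Proof (`Pool/Agent/J6H55/MA`). `W 0` is the set of the words of length one and two, and `W (k+1)` the set of the
words `s ++ u`, `s` an arbitrary concatenation of words in `W k` with length in `[T, 2 T]`, `T` large, and `u` a
concatenation of words in `W k` which contains all `v ++ v'`, `v`, `v'` in `W k`. Let `X` be the set of the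
sequences whose windows are subwords of concatenations of words in `W k`, for all `k`. `X` is minimal, as
all words in `W (k+1)` contain all short words of `X`. A concatenation of words in `W k` is changed to one of words
in `W (k+1)` by overwriting a small part of each of its long pieces (the words of `W k` have all large enough
lengths in an interval, so that nothing is shifted). The overwritten parts are long, but of small density, seen
from the beginning of the sequence. A pseudo-orbit is followed by concatenations of words in `W k` from the time
`P k` to the time `P (k+1)`, where `P k` grows fast, and these are changed step by step to a point of `X`.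
-/

set_option autoImplicit false

namespace Pool.Agent.Results.MP_883b72_an.MinimalAverageShadowing

open Pool.Agent.J6H55.MA

/-- There is a nontrivial minimal system with the asymptotic average shadowing property. -/
theorem result : ∃ (X : Type) (_ : MetricSpace X) (f : X → X), CompactSpace X ∧ Continuous f ∧
    Nontrivial X ∧ Minimal f ∧ AASP f :=
  main (Pool.Agent.J6H85.MAStep.step fro uu Pool.Agent.J6H28.MA.grp) (Pool.Agent.J6H78.MA.blk fro)
    in1 in2 Pool.Agent.J6H47.MA.met

end Pool.Agent.Results.MP_883b72_an.MinimalAverageShadowing
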